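import Mathlib
import Pool.Agent.H54.Pow4

set_option autoImplicit false
open Finset

namespace Pool.Agent.Results.MP_5e019f_nt.Q1False

open Classical in
/-- `F k d n`: largest size of a subset of `[1, n]` in which no product of `k` distinct elements
is a perfect `d`-th power. -/
noncomputable def F (k d n : ℕ) : ℕ :=
  ((Icc 1 n).powerset.filter (fun A : Finset ℕ => ∀ B : Finset ℕ, B ⊆ A → B.card = k →
    ¬ ∃ x : ℕ, 0 < x ∧ ∏ b ∈ B, b = x ^ d)).sup Finset.card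

open Classical in
/-- `f k d n`: the same with repetitions allowed. -/
noncomputable def f (k d n : ℕ) : ℕ :=
  ((Icc 1 n).powerset.filter (fun A : Finset ℕ => ∀ a : Fin k → ℕ, (∀ i, a i ∈ A) →
    ¬ ∃ x : ℕ, 0 < x ∧ ∏ i, a i = x ^ d)).sup Finset.card

theorem result :
    (∀ C : ℝ, ∀ᶠ n : ℕ in Filter.atTop, C * (n : ℝ) ^ ((2 : ℝ) / 4) ≤ (n : ℝ) - F 2 4 n) ∧
    ¬ (∀ k d : ℕ, 1 < k → k < d → 4 ≤ d → ∃ c C : ℝ, 0 < c ∧ c ≤ C ∧
        ∀ᶠ n : ℕ in Filter.atTop,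
          c * (n : ℝ) ^ ((k : ℝ) / d) ≤ (n : ℝ) - F k d n ∧
          (n : ℝ) - F k d n ≤ (n : ℝ) - f k d n ∧
          (n : ℝ) - f k d n ≤ C * (n : ℝ) ^ ((k : ℝ) / d)) := by
  classical
  have h1 : ∀ C : ℝ, ∀ᶠ n : ℕ in Filter.atTop,
      C * (n : ℝ) ^ ((2 : ℝ) / 4) ≤ (n : ℝ) - F 2 4 n := by
    intro C
    filter_upwards [Pool.Agent.H54.Pow4.main C] with n hn
    have e : (n : ℝ) ^ ((2 : ℝ) / 4) = Real.sqrt n := by
      rw [Real.sqrt_eq_rpow]; norm_num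
    rw [e]
    unfold F
    obtain ⟨A, hA, hsup⟩ := exists_mem_eq_sup
      ((Icc 1 n).powerset.filter (fun A : Finset ℕ => ∀ B : Finset ℕ, B ⊆ A → B.card = 2 →
        ¬ ∃ x : ℕ, 0 < x ∧ ∏ b ∈ B, b = x ^ 4))
      ⟨∅, mem_filter.mpr ⟨by simp, fun B hB hc => by
        rw [subset_empty.mp hB] at hc; simp at hc⟩⟩ Finset.card
    obtain ⟨h2, h3⟩ := mem_filter.mp hA
    have h4 := hn A (mem_powerset.mp h2) (fun a ha b hb hab hx => h3 {a, b}
      (by intro z hz; simp only [mem_insert, mem_singleton] at hz; rcases hz with rfl | rfl <;> assumption)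
      (card_pair hab) (by rwa [prod_pair hab]))
    convert h4 using 3
  refine ⟨h1, fun h => ?_⟩
  obtain ⟨c, C, -, -, h2⟩ := h 2 4 (by norm_num) (by norm_num) le_rfl
  obtain ⟨n, ⟨h3, -, h4, h5⟩, h6⟩ :=
    (((h1 (C + 1)).and h2).and (Filter.eventually_ge_atTop 1)).exists
  have h7 : (0 : ℝ) < (n : ℝ) ^ ((2 : ℝ) / 4) := Real.rpow_pos_of_pos (by exact_mod_cast h6) _
  push_cast at h5
  nlinarith

end Pool.Agent.Results.MP_5e019f_nt.Q1False
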